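import Pool.Agent.H91.S6B.Lvl
import Pool.Agent.H72.S6B.Stm2

/-!
# Rounding of the planes of directions of the frames

`frm_of_raw`: the planes of directions of the frames `FrmRaw` can be rounded, such that they have
few digits at the exact points.
-/

set_option autoImplicit false

namespace Pool.S6B

open Finset Real
open Pool.Agent.H49.Ent Pool.Agent.H32.Dense Pool.STK Pool.KA Pool.KA.Win Pool.KA.TRC
  Pool.KSAT Pool.K2S Pool.K2S.Rows Pool.K2S.FF Pool.PB Pool.KS6 Pool.S6K.Wfe Pool.UST Pool.S6U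
  Pool.S6C Pool.Sel51

section one

variable {J : ℕ} {F : Fam 3 J}

theorem pow_cap {E : ℝ} {k n : ℕ} (hE : E ≤ 2 ^ k) (hk : k ≤ n) :
    E / (2 : ℝ) ^ n ≤ 1 / 2 ^ (n - k) := by
  have h1 : (2 : ℝ) ^ n = 2 ^ (n - k) * 2 ^ k := by
    rw [← pow_add]
    congr 1
    omega
  have p0 : (0 : ℝ) < 2 ^ (n - k) := by positivity
  have p1 : (0 : ℝ) < 2 ^ k := by positivity
  rw [h1, div_le_div_iff₀ (by positivity) p0]
  nlinarith only [hE, p0]

/-- A bound `E / 2 ^ n` with `E ≤ 2 ^ k`, or a trivial bound. -/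
theorem cap_or {E b y : ℝ} {k n h : ℕ} (hE : E ≤ 2 ^ k) (hb : 1 ≤ b) (h1 : y ≤ E / 2 ^ n)
    (h2 : y ≤ b) (hh : h ≤ n - k) : y ≤ b / 2 ^ h := by
  have p0 : (0 : ℝ) < 2 ^ h := by positivity
  by_cases hk : k ≤ n
  · have h3 := h1.trans (pow_cap hE hk)
    have h4 : (1 : ℝ) / 2 ^ (n - k) ≤ 1 / 2 ^ h :=
      div_le_div_of_nonneg_left (by norm_num) p0 (pow_le_pow_right₀ (by norm_num) hh)
    have h5 : (1 : ℝ) / 2 ^ h ≤ b / 2 ^ h := div_le_div_of_nonneg_right hb p0.le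
    linarith only [h3, h4, h5]
  · have h3 : h = 0 := by omega
    rw [h3, pow_zero, div_one]
    exact h2

/-- **The rounding of the plane of directions of the frames.** -/
theorem BFr.round {A : F.Ω → Prop} {i₀ : Fin 3} {rot th : ℚ → ℝ}
    {w₀ v₀ v ρ Gp R₀ qm L e e₂ : ℝ}
    {wq : ℚ} {Nm : ℕ} {u : ℕ → ℚ} {sg : Fin 3 → Fin 3} {wa wb : ℕ} {vp : ℕ → ℕ}
    {kap Hu HN : ℕ} {al nu kN nN : (Fin 3 → ℤ) × (ℕ × F.ζ) → ℝ} {a : ℕ → F.Ω → ℝ}
    {s t : F.Ω → ℝ} {z : ℕ → F.Ω → Pln} {B C E : ℝ}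
    (h : BFr F A i₀ rot th w₀ v₀ v R₀ qm L e wq Nm u sg wa wb vp kap Hu HN al nu kN nN a s t z
      B C E)
    (hv : 0 ≤ v) (hρ : 0 ≤ ρ) (he : 0 ≤ e) (he2 : e ≤ 1 / 2) (he3 : 2 * e ≤ e₂)
    (hR : R₀ = Gp + (v + ρ + 2) * L)
    (hth : ∀ j < Nm, |th (u j) - u j - Gp| ≤ 2 * (ρ + 1) * L)
    (hrot : ∀ j < Nm, |rot (u j) - v₀| ≤ 2 * (v + 1) * L)
    (hJ1 : 1 ≤ L * J) (hJ2 : Real.log (B + 11) ≤ e * L * J) :
    ∃ (kap' HN' : ℕ) (s' t' : F.Ω → ℝ),
      BFr F A i₀ rot th w₀ v₀ v R₀ qm L e₂ wq Nm u sg wa wb vp kap' Hu HN' al nu kN nN a s' t' z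
        (4 * B + 5) (C + B + 6) (2 * E + B + 9) ∧
      ∀ p : F.Ω → ℝ, IsLaw p → (∀ ω, 0 < p ω → A ω) →
        CH p (fun ω => (s' ω, t' ω)) (Fam.pt F) ≤
          2 * ⌈(4 * v + 4 * ρ + 16) * (L * J)⌉₊ * Real.log 2 +
            2 * Real.log (4 * ((3 * B + 12) * (1 + 2 * (B + 4))) + 5) := by
  obtain ⟨l1, l2, l3, l4⟩ := h.lo
  have hB := h.fr.B1
  have hC := h.fr.C1
  have hE1 := h.E1
  have p0 : ∀ n : ℕ, (0 : ℝ) < 2 ^ n := fun n => by positivity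
  have hJ0 : (0 : ℝ) ≤ J := Nat.cast_nonneg J
  obtain ⟨Y, hY⟩ : ∃ Y : ℝ, Y = L * J := ⟨_, rfl⟩
  have hY1 : 1 ≤ Y := by rw [hY]; exact hJ1
  have heY : e * L * J = e * Y := by rw [hY]; ring
  have heY2 : e * Y ≤ Y / 2 := by nlinarith only [he2, hY, heY, hJ1]
  have heY0 : 0 ≤ e * Y := by positivity
  have he4 : 2 * (e * Y) ≤ e₂ * Y := by nlinarith only [he3, hJ1, hY]
  have heY3 : e₂ * L * J = e₂ * Y := by rw [hY]; ring
  have hvY : 0 ≤ v * Y := by positivity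
  have hρY : 0 ≤ ρ * Y := by positivity
  -- the numbers of the labels
  have nth : ∀ j < Nm, Gp * J - 2 * (ρ + 1) * Y ≤ (th (u j) - u j) * J ∧
      (th (u j) - u j) * J ≤ Gp * J + 2 * (ρ + 1) * Y := by
    intro j hj
    have h1 := abs_le.1 (hth j hj)
    rw [hY]
    constructor <;> nlinarith only [h1, hJ0, mul_le_mul_of_nonneg_right h1.1 hJ0,
      mul_le_mul_of_nonneg_right h1.2 hJ0]
  have nrot : ∀ j < Nm, v₀ * J - 2 * (v + 1) * Y ≤ rot (u j) * J ∧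
      rot (u j) * J ≤ v₀ * J + 2 * (v + 1) * Y := by
    intro j hj
    have h1 := abs_le.1 (hrot j hj)
    rw [hY]
    constructor <;> nlinarith only [h1, hJ0, mul_le_mul_of_nonneg_right h1.1 hJ0,
      mul_le_mul_of_nonneg_right h1.2 hJ0]
  -- the levels
  obtain ⟨k, hk⟩ : ∃ k : ℕ, k = ⌈Real.log E / Real.log 2⌉₊ := ⟨_, rfl⟩
  have hl2 : 0 < Real.log 2 := Real.log_pos (by norm_num)
  have hlh : 1 / 2 < Real.log 2 := by have := Real.log_two_gt_d9; linarith only [hl2, this]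
  have hlE : 0 ≤ Real.log E := Real.log_nonneg hE1
  have hEk : E ≤ 2 ^ k := by
    have h1 : Real.log E / Real.log 2 ≤ k := by rw [hk]; exact Nat.le_ceil _
    rw [div_le_iff₀ hl2] at h1
    have h2 : Real.log E ≤ Real.log (2 ^ k) := by rw [Real.log_pow]; exact h1
    exact (Real.log_le_log_iff (by linarith only [hE1]) (by positivity)).1 h2
  have hk1 : (k : ℝ) ≤ Y + 1 := by
    have h1 : (k : ℝ) < Real.log E / Real.log 2 + 1 := by
      rw [hk]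
      exact Nat.ceil_lt_add_one (by positivity)
    have h2 : Real.log E / Real.log 2 ≤ 2 * (e * Y) := by
      rw [div_le_iff₀ hl2]
      have h3 := h.logE
      rw [heY] at h3
      nlinarith only [h3, heY0, hlh]
    linarith only [heY2, h1, h2]
  obtain ⟨H0, hH0⟩ : ∃ H0 : ℕ, H0 = ⌊(th (u 0) - u 0 - rot (u 0)) * J⌋₊ := ⟨_, rfl⟩
  obtain ⟨T, hT⟩ : ∃ T : ℕ, T = ⌊(th (u 0) - u 0) * J⌋₊ := ⟨_, rfl⟩
  obtain ⟨t1, t2⟩ := nth 0 l1
  obtain ⟨r1, r2⟩ := nrot 0 l1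
  have hH0' : (th (u 0) - u 0) * J - rot (u 0) * J - 1 ≤ H0 := by
    have h1 := Nat.sub_one_lt_floor ((th (u 0) - u 0 - rot (u 0)) * J)
    rw [← hH0] at h1
    nlinarith only [h1]
  have hT' : (th (u 0) - u 0) * J - 1 ≤ T := by
    have h1 := Nat.sub_one_lt_floor ((th (u 0) - u 0) * J)
    rw [← hT] at h1
    linarith only [h1]
  have hHT : H0 ≤ T := by
    rw [hH0, hT]
    refine Nat.floor_mono ?_
    have h1 : 0 ≤ rot (u 0) * J := le_trans (Nat.cast_nonneg _) l3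
    nlinarith only [l3]
  obtain ⟨H, hH⟩ : ∃ H : ℕ, H = H0 - k := ⟨_, rfl⟩
  obtain ⟨V, hV⟩ : ∃ V : ℕ, V = min (T - k - H) (vp wa - k) := ⟨_, rfl⟩
  have hVH : V + H ≤ T - k := by omega
  have hVp : V ≤ vp wa - k := by rw [hV]; exact min_le_right _ _
  have cH : (H0 : ℝ) - k ≤ H := by
    have : H0 ≤ H + k := by omega
    have : (H0 : ℝ) ≤ H + k := by exact_mod_cast this
    linarith only [this]
  -- the slopes of the windows
  have lin := h.lin
  have wa2 := h.wa2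
  have wb2 := h.wb2
  have ww1 : (w₀ - L / 2) * J = w₀ * J - Y / 2 := by rw [hY]; ring
  have ww2 : (w₀ + L / 2) * J = w₀ * J + Y / 2 := by rw [hY]; ring
  rw [ww1] at wa2
  rw [ww2] at wb2
  have hwab : wa ≤ wb := by
    have h2 : (wa : ℝ) ≤ wb := by linarith only [hJ1, hY, wa2, wb2]
    exact_mod_cast h2
  have hwaJ : wa ≤ J := hwab.trans h.fr.wJ
  have vlow : ∀ w, wa ≤ w → w ≤ wb → v₀ * J - v * Y - Y / 2 ≤ vp w := by
    intro w g1 g2
    have h1 := (abs_le.1 (lin w g1 g2)).1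
    rw [heY] at h1
    have h2 := h.wa1
    have h3 : (wa : ℝ) ≤ w := by exact_mod_cast g1
    have h4 : -Y ≤ (w : ℝ) - w₀ * J := by
      rw [hY]
      nlinarith only [h2, h3]
    have h5 := mul_le_mul_of_nonneg_left h4 hv
    linarith only [heY2, h1, h5]
  have vb : v₀ * J - Y / 2 ≤ vp wb := by
    have h1 := (abs_le.1 (lin wb hwab le_rfl)).1
    rw [heY] at h1
    have h4 : 0 ≤ (wb : ℝ) - w₀ * J := by linarith only [hJ1, hY, wb2]
    have h5 := mul_nonneg hv h4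
    linarith only [heY2, h1, h5]
  have va := vlow wa le_rfl hwab
  have cVH : Gp * J - (2 * ρ + 3 * v + 7) * Y - 4 ≤ ((V + H : ℕ) : ℝ) := by
    rcases min_choice (T - k - H) (vp wa - k) with hc | hc
    · have h1 : T ≤ V + H + k := by omega
      have h2 : (T : ℝ) ≤ ((V + H : ℕ) : ℝ) + k := by exact_mod_cast h1
      linarith only [hJ1, hY, hvY, hk1, t1, hT', h2]
    · have h1 : vp wa ≤ V + k := by omega
      have h2 : (vp wa : ℝ) ≤ (V : ℝ) + k := by exact_mod_cast h1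
      push_cast
      linarith only [hJ1, hY, hk1, t1, r2, hH0', cH, va, h2]
  have cHl : Gp * J - v₀ * J - (2 * ρ + 2 * v + 5) * Y - 2 ≤ (H : ℝ) := by linarith only [hk1, t1, r2, hH0', cH]
  -- the number of digits
  obtain ⟨x, hx⟩ : ∃ x : ℕ, x = ⌈(4 * v + 4 * ρ + 16) * (L * J)⌉₊ := ⟨_, rfl⟩
  have hx1 : (4 * v + 4 * ρ + 16) * Y ≤ x := by rw [hx, hY]; exact Nat.le_ceil _
  -- the lower levels
  obtain ⟨kap', hkap'⟩ : ∃ kap' : ℕ, kap' = ⌈R₀ * J⌉₊ := ⟨_, rfl⟩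
  obtain ⟨qq, hqq⟩ : ∃ qq : ℕ, qq = ⌈qm * J⌉₊ := ⟨_, rfl⟩
  obtain ⟨HN', hHN'⟩ : ∃ HN' : ℕ, HN' = ⌈(kap' : ℝ) + qq + L * J⌉₊ := ⟨_, rfl⟩
  have hRY : R₀ * J = Gp * J + (v + ρ + 2) * Y := by rw [hR, hY]; ring
  have hk2 : kap' ≤ kap := by rw [hkap']; exact Nat.ceil_le.2 h.kap1
  have hk2' : (kap' : ℝ) ≤ kap := by exact_mod_cast hk2
  obtain ⟨q1, q2, q3, q4⟩ := h.room
  rw [← hqq] at q1 q2 q3 q4
  have hN2 : HN' ≤ HN := by
    rw [hHN']
    exact Nat.ceil_le.2 (by linarith only [hk2', q2])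
  have g2 : kap' ≤ V + H + x := by
    rw [hkap']
    refine Nat.ceil_le.2 ?_
    push_cast at cVH ⊢
    linarith only [hJ1, hY, hρY, hx1, hRY, cVH]
  have g1 : HN' ≤ H + x + Hu := by
    rw [hHN']
    refine Nat.ceil_le.2 ?_
    have h1 : (kap' : ℝ) ≤ H + x + vp wb := by
      have h2 : kap' ≤ H + x + vp wb := by
        rw [hkap']
        refine Nat.ceil_le.2 ?_
        push_cast
        linarith only [hJ1, hY, hvY, hρY, hk1, t1, r2, hH0', cH, vb, hx1, hRY]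
      exact_mod_cast h2
    push_cast
    linarith only [q1, h1]
  -- the rounded plane
  have hfr := h.fr.lvl hk2 (le_refl Hu) hN2
  obtain ⟨n0, -⟩ : NL F A sg ⌊(u 0 : ℝ) * J⌋₊ ⌊(rot (u 0) - e * L) * J⌋₊
    ⌊(th (u 0) - e * L) * J⌋₊ (z 0) ∧ True := ⟨h.nl 0 l1, trivial⟩
  have hvz : ∀ ω, A ω → |(z 0 ω).e| ≤ 2 ∧ |(z 0 ω).c| ≤ 4 ∧ |(z 0 ω).s| ≤ 4 := fun ω hω =>
    ⟨(n0.inc ω hω).e_le, (n0.inc ω hω).c_le, (n0.inc ω hω).s_le⟩
  have hwl : ⌊(u 0 : ℝ) * J⌋₊ ≤ ⌊(wq : ℝ) * J⌋₊ := by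
    refine Nat.floor_mono (mul_le_mul_of_nonneg_right ?_ hJ0)
    exact_mod_cast l2
  have k3 : ∀ ω, A ω → |al (Fam.pt F ω) - (z 0 ω).e| ≤ (B + 4) / 2 ^ V := by
    intro ω hω
    have b1 := h.fr.near wa le_rfl hwab ω hω
    have b2 := (l4 ω hω).1
    have b3 : |al (Fam.pt F ω) - (z 0 ω).e| ≤ (3 + E) / 2 ^ vp wa := by
      have e1 : al (Fam.pt F ω) - (z 0 ω).e = (al (Fam.pt F ω) - a wa ω) +
          (a wa ω - fra (z 0) ω) := by
        unfold fra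
        ring
      rw [e1]
      refine (abs_add_le _ _).trans ?_
      have e2 : (3 + E) / (2 : ℝ) ^ vp wa = 3 / 2 ^ vp wa + E / 2 ^ vp wa := by ring
      linarith only [b1, b2, e2]
    have b4 : |al (Fam.pt F ω) - (z 0 ω).e| ≤ B + 4 :=
      (abs_sub _ _).trans (by linarith only [h, hω, hvz, h.fr.bal ω hω, (hvz ω hω).1])
    by_cases hkv : k ≤ vp wa
    · have p1 : (1 : ℝ) ≤ 2 ^ k := one_le_pow₀ (by norm_num)
      have b5 : (3 + E) / (2 : ℝ) ^ vp wa ≤ 4 * (2 ^ k / 2 ^ vp wa) := by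
        rw [← mul_div_assoc]
        exact div_le_div_of_nonneg_right (by linarith only [hE1, hEk]) (p0 _).le
      have b6 := pow_cap (le_refl ((2 : ℝ) ^ k)) hkv
      have b7 : (1 : ℝ) / 2 ^ (vp wa - k) ≤ 1 / 2 ^ V :=
        div_le_div_of_nonneg_left (by norm_num) (p0 _) (pow_le_pow_right₀ (by norm_num) hVp)
      have b8 : 4 * ((1 : ℝ) / 2 ^ V) ≤ (B + 4) / 2 ^ V := by
        rw [← mul_div_assoc, mul_one]
        exact div_le_div_of_nonneg_right (by linarith only [hB]) (p0 _).le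
      linarith only [b3, b5, b6, b7, b8]
    · have b5 : V = 0 := by omega
      rw [b5, pow_zero, div_one]
      exact b4
  have k1 : ∀ ω, A ω → |s ω + (z 0 ω).s| ≤ (3 * B + 12) / 2 ^ H := by
    intro ω hω
    have b1 := (l4 ω hω).2.1
    rw [← hH0] at b1
    have e1 : s ω - frs (z 0) ω = s ω + (z 0 ω).s := by unfold frs; ring
    rw [e1] at b1
    refine cap_or hEk (by linarith only [hB]) b1 ?_ (by omega)
    exact (abs_add_le _ _).trans (by linarith only [hB, h, hω, hvz, (h.fr.bd ω hω).1, (hvz ω hω).2.2])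
  have k2 : ∀ ω, A ω → |t ω + (z 0 ω).c + (s ω + (z 0 ω).s) * (z 0 ω).e| ≤
      (3 * B + 12) / 2 ^ (V + H) := by
    intro ω hω
    have b1 := (l4 ω hω).2.2
    rw [← hT] at b1
    have e1 : (t ω - frt (z 0) ω) + (s ω - frs (z 0) ω) * fra (z 0) ω =
        t ω + (z 0 ω).c + (s ω + (z 0 ω).s) * (z 0 ω).e := by
      unfold frt frs fra
      ring
    rw [e1] at b1
    refine cap_or hEk (by linarith only [hB]) b1 ?_ hVH
    obtain ⟨c1, c2, c3⟩ := hvz ω hω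
    obtain ⟨c4, c5⟩ := h.fr.bd ω hω
    have c6 : |(s ω + (z 0 ω).s) * (z 0 ω).e| ≤ (B + 4) * 2 := by
      rw [abs_mul]
      refine mul_le_mul ((abs_add_le _ _).trans (by linarith only [c3, c4])) c1 (abs_nonneg _) (by linarith only [hB])
    have c7 := abs_add_le (t ω + (z 0 ω).c) ((s ω + (z 0 ω).s) * (z 0 ω).e)
    have c8 := abs_add_le (t ω) ((z 0 ω).c)
    linarith only [c2, c5, c6, c7, c8]
  obtain ⟨s', t', f1, -, f3, f4, -, f6⟩ := hfr.fri_pln (z := z 0) (a1 := fun ω => (z 0 ω).e)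
    (u := ⌊(u 0 : ℝ) * J⌋₊) (H := H) (V := V) (x := x) (E := 3 * B + 12) (c := B + 4)
    (by linarith only [hB]) (by linarith only [hB]) hwl (h.fr.lw.trans hwaJ) g1 g2 n0.vis n0.con k1 k2 k3 k3
  have eB : 3 * B + (B + 4) + 1 = 4 * B + 5 := by ring
  have eC : C + (B + 4) + 2 = C + B + 6 := by ring
  rw [eB, eC] at f1
  -- the closeness to the natural labels
  have key : ∀ {x y : ℕ} {c : ℝ}, 0 ≤ c → x ≤ y → c / (2 : ℝ) ^ y ≤ c / 2 ^ x := by
    intro x y c hc hxy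
    exact div_le_div_of_nonneg_left hc (p0 _) (pow_le_pow_right₀ (by norm_num) hxy)
  have clos : ∀ w, wa ≤ w → w ≤ wb → ∀ j < Nm, ∀ ω, A ω →
      (|a w ω - fra (z j) ω| ≤ E / 2 ^ vp w ∧
        |s ω - frs (z j) ω| ≤ E / 2 ^ ⌊(th (u j) - u j - rot (u j)) * J⌋₊ ∧
        |(t ω - frt (z j) ω) + (s ω - frs (z j) ω) * fra (z j) ω| ≤
          E / 2 ^ ⌊(th (u j) - u j) * J⌋₊) →
      |a w ω - fra (z j) ω| ≤ (2 * E + B + 9) / 2 ^ vp w ∧
        |s' ω - frs (z j) ω| ≤ (2 * E + B + 9) / 2 ^ ⌊(th (u j) - u j - rot (u j)) * J⌋₊ ∧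
        |(t' ω - frt (z j) ω) + (s' ω - frs (z j) ω) * fra (z j) ω| ≤
          (2 * E + B + 9) / 2 ^ ⌊(th (u j) - u j) * J⌋₊ := by
    intro w w1 w2 j hj ω hω hcl
    obtain ⟨tj1, tj2⟩ := nth j hj
    obtain ⟨rj1, rj2⟩ := nrot j hj
    have vw := vlow w w1 w2
    have a1 : ⌊(th (u j) - u j - rot (u j)) * J⌋₊ ≤ H + x := by
      refine Nat.floor_le_of_le ?_
      have e1 : (th (u j) - u j - rot (u j)) * J = (th (u j) - u j) * J - rot (u j) * J := by ring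
      rw [e1]
      push_cast
      linarith only [hJ1, hY, hk1, t1, r2, hH0', cH, hx1, tj2, rj1]
    have a2 : ⌊(th (u j) - u j) * J⌋₊ ≤ V + H + x := by
      refine Nat.floor_le_of_le ?_
      push_cast at cVH ⊢
      linarith only [hJ1, hY, hvY, hx1, tj2, cVH]
    have a3 : ⌊(th (u j) - u j) * J⌋₊ ≤ H + x + vp w := by
      refine Nat.floor_le_of_le ?_
      push_cast
      linarith only [hJ1, hY, hvY, hk1, t1, r2, hH0', cH, hx1, tj2, vw]
    obtain ⟨c1, c2, c3⟩ := hcl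
    refine ⟨c1.trans (div_le_div_of_nonneg_right (by linarith only [hB, hE1]) (p0 _).le), ?_, ?_⟩
    · have d1 := f3 ω hω
      have d2 : s' ω - frs (z j) ω = (s ω - frs (z j) ω) - (s ω - s' ω) := by ring
      rw [d2]
      refine (abs_sub _ _).trans ?_
      have d3 : (1 : ℝ) / 2 ^ (H + x) ≤ 1 / 2 ^ ⌊(th (u j) - u j - rot (u j)) * J⌋₊ :=
        key (by norm_num) a1
      have d4 : E / (2 : ℝ) ^ ⌊(th (u j) - u j - rot (u j)) * J⌋₊ +
          1 / 2 ^ ⌊(th (u j) - u j - rot (u j)) * J⌋₊ ≤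
          (2 * E + B + 9) / 2 ^ ⌊(th (u j) - u j - rot (u j)) * J⌋₊ := by
        rw [← add_div]
        exact div_le_div_of_nonneg_right (by linarith only [hB, hE1]) (p0 _).le
      linarith only [c2, d1, d3, d4]
    · have d1 := f3 ω hω
      have d0 := f4 ω hω
      have d2 : (t' ω - frt (z j) ω) + (s' ω - frs (z j) ω) * fra (z j) ω =
          ((t ω - frt (z j) ω) + (s ω - frs (z j) ω) * fra (z j) ω) -
          ((s ω * al (Fam.pt F ω) + t ω) - (s' ω * al (Fam.pt F ω) + t' ω)) +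
          (s ω - s' ω) * (al (Fam.pt F ω) - fra (z j) ω) := by ring
      rw [d2]
      have b1 := h.fr.near w w1 w2 ω hω
      have b3 : |al (Fam.pt F ω) - fra (z j) ω| ≤ (3 + E) / 2 ^ vp w := by
        have e1 : al (Fam.pt F ω) - fra (z j) ω = (al (Fam.pt F ω) - a w ω) +
            (a w ω - fra (z j) ω) := by ring
        rw [e1]
        refine (abs_add_le _ _).trans ?_
        have e2 : (3 + E) / (2 : ℝ) ^ vp w = 3 / 2 ^ vp w + E / 2 ^ vp w := by ring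
        linarith only [c1, b1, e2]
      have b4 : |(s ω - s' ω) * (al (Fam.pt F ω) - fra (z j) ω)| ≤
          (3 + E) / 2 ^ ⌊(th (u j) - u j) * J⌋₊ := by
        rw [abs_mul]
        calc |s ω - s' ω| * |al (Fam.pt F ω) - fra (z j) ω| ≤
              1 / 2 ^ (H + x) * ((3 + E) / 2 ^ vp w) :=
              mul_le_mul d1 b3 (abs_nonneg _) (by positivity)
          _ = (3 + E) / 2 ^ (H + x + vp w) := by
              rw [pow_add (2 : ℝ) (H + x) (vp w)]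
              field_simp
          _ ≤ (3 + E) / 2 ^ ⌊(th (u j) - u j) * J⌋₊ := key (by linarith only [hE1]) a3
      have b5 : (B + 4 + 2) / (2 : ℝ) ^ (V + H + x) ≤
          (B + 4 + 2) / 2 ^ ⌊(th (u j) - u j) * J⌋₊ := key (by linarith only [hB]) a2
      have b6 := abs_add_le (((t ω - frt (z j) ω) + (s ω - frs (z j) ω) * fra (z j) ω) -
          ((s ω * al (Fam.pt F ω) + t ω) - (s' ω * al (Fam.pt F ω) + t' ω)))
          ((s ω - s' ω) * (al (Fam.pt F ω) - fra (z j) ω))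
      have b7 := abs_sub ((t ω - frt (z j) ω) + (s ω - frs (z j) ω) * fra (z j) ω)
          ((s ω * al (Fam.pt F ω) + t ω) - (s' ω * al (Fam.pt F ω) + t' ω))
      have b8 : (2 * E + B + 9) / (2 : ℝ) ^ ⌊(th (u j) - u j) * J⌋₊ =
          E / 2 ^ ⌊(th (u j) - u j) * J⌋₊ + (B + 4 + 2) / 2 ^ ⌊(th (u j) - u j) * J⌋₊ +
            (3 + E) / 2 ^ ⌊(th (u j) - u j) * J⌋₊ := by ring
      rw [b8]
      linarith only [c3, d0, b4, b5, b6, b7]
  have eLJ : e * L * J ≤ e₂ * L * J := by rw [heY, heY3]; linarith only [heY0, he4]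
  refine ⟨kap', HN', s', t', ⟨f1, h.s0, h.bk, h.wa1, h.wb1, h.wa2, h.wb2, ?_, ?_, ?_, ?_,
    by linarith only [hB, hE1], ?_, ?_, l1, l2, l3, fun ω hω => clos wa le_rfl hwab 0 l1 ω hω (l4 ω hω)⟩, ?_⟩
  · exact fun w w1 w2 => (lin w w1 w2).trans eLJ
  · rw [hkap']
    exact Nat.le_ceil _
  · rw [← hqq]
    refine ⟨q1, ?_, q3, by linarith only [hk2', q4]⟩
    rw [hHN']
    exact Nat.le_ceil _
  · intro j hj
    refine Pool.S6B.NL.lvl (h.nl j hj) (Nat.floor_mono ?_) (Nat.floor_mono ?_)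
    · linarith only [heY, heY0, he4, heY3]
    · linarith only [heY, heY0, he4, heY3]
  · have b1 : Real.log (2 * E + B + 9) ≤ Real.log ((B + 11) * E) :=
      Real.log_le_log (by linarith only [hB, hE1]) (by nlinarith only [hE1, hB])
    rw [Real.log_mul (by linarith only [hB]) (by linarith only [hE1])] at b1
    have b2 := h.logE
    rw [heY3]
    rw [heY] at b2 hJ2
    linarith only [hJ2, he4, b1, b2]
  · intro w w1 w2
    obtain ⟨j, hj, j1, j2, j3, j4⟩ := h.cls w w1 w2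
    exact ⟨j, hj, j1, j2.trans (by linarith only [heY, heY0, he4, heY3]), j3, fun ω hω => clos w w1 w2 j hj ω hω (j4 ω hω)⟩
  · intro p hp hpA
    rw [← hx]
    exact f6 p hp hpA

end one

/-- **The rounding of the planes of directions**, in a class. -/
theorem frm_of_raw {Γ : ℝ → ℝ → Prop} (hraw : FrmRaw Γ) : FrmStmt Γ := by
  intro S a R h₁ i₀ c s₂ r D σ hCs act K W v₁ t e₁ Q₀ P g v₀ v ρ a₀ α hLoc hΓ pe rc Rc hp1 hp2 hp3
    hp4 hp5
  obtain ⟨B, C, Ki, hB, hC, _, hraw⟩ := hraw S a R h₁ i₀ c s₂ r D σ hCs act K W v₁ t e₁ Q₀ P g v₀ v ρ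
    a₀ α hLoc hΓ pe rc Rc hp1 hp2 hp3 hp4 hp5
  have hv := hLoc.v0
  have hρ := hLoc.ρ0
  obtain ⟨d1, hd1, k1⟩ := hLoc.th 1 one_pos
  obtain ⟨d2, hd2, k2⟩ := hLoc.rot 1 one_pos
  obtain ⟨G, hG⟩ : ∃ G : ℝ, G = 2 * Real.log (4 * ((3 * B + 12) * (1 + 2 * (B + 4))) + 5) :=
    ⟨_, rfl⟩
  have hG0 : 0 ≤ G := by
    rw [hG]
    refine mul_nonneg (by norm_num) (Real.log_nonneg ?_)
    have : 0 ≤ (3 * B + 12) * (1 + 2 * (B + 4)) := by positivity
    linarith only [this]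
  refine ⟨4 * B + 5, C + B + 6, 2 * (4 * v + 4 * ρ + 16) + 3, by linarith only [hB], by linarith only [hB, hC],
    by linarith only [hv, hρ], fun M hM e he => ?_⟩
  obtain ⟨e', he'⟩ : ∃ e' : ℝ, e' = min e 1 / 2 := ⟨_, rfl⟩
  have he0 : 0 < e' := by rw [he']; positivity
  have he1 : e' ≤ 1 / 2 := by rw [he']; linarith only [min_le_right e 1]
  have he2 : 2 * e' ≤ e := by rw [he']; linarith only [min_le_left e 1]
  obtain ⟨L₀, hL₀, hraw⟩ := hraw M hM e' he0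
  refine ⟨min L₀ (min d1 d2 / 4), lt_min hL₀ (by positivity), fun L hL hL1 => ?_⟩
  have hLa : L ≤ L₀ := hL1.trans (min_le_left _ _)
  have hLb : L ≤ min d1 d2 / 4 := hL1.trans (min_le_right _ _)
  have hm1 : min d1 d2 ≤ d1 := min_le_left _ _
  have hm2 : min d1 d2 ≤ d2 := min_le_right _ _
  obtain ⟨wq, Nm, u, hwq, hu, hraw⟩ := hraw L hL hLa
  refine ⟨wq, Nm, u, hwq, hu, fun τ J₀ hτ => ?_⟩
  obtain ⟨J₁, hJ₁⟩ := exists_nat_ge ((1 + Real.log (B + 11) / e' + G) / L)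
  obtain ⟨J, F, A, hJ, hSt, sg, wa, wb, vp, kap, Hu, HN, al, nu, kN, nN, a', s, t', z, E, hF, -⟩ :=
    hraw τ (max J₀ J₁) hτ
  have hJ' : (J₁ : ℝ) ≤ J := by exact_mod_cast (le_max_right _ _).trans hJ
  have hlB : 0 ≤ Real.log (B + 11) := Real.log_nonneg (by linarith only [hB, he0, he1])
  have hLJ : 1 + Real.log (B + 11) / e' + G ≤ L * J := by
    have h1 := hJ₁.trans hJ'
    rw [div_le_iff₀ hL] at h1
    linarith only [h1]
  have hdiv : 0 ≤ Real.log (B + 11) / e' := by positivity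
  have hJ2 : Real.log (B + 11) ≤ e' * L * J := by
    have h1 : Real.log (B + 11) / e' ≤ L * J := by linarith only [hG0, he0, he1, hLJ]
    rw [div_le_iff₀ he0] at h1
    linarith only [h1]
  have hnum : ∀ j < Nm, |(u j : ℝ) - W g| ≤ 2 * L ∧ |(u j : ℝ) - W g| < d1 ∧
      |(u j : ℝ) - W g| < d2 := by
    intro j hj
    have h1 := (hu j hj).1
    exact ⟨h1, by linarith only [hL, hLb, hm1, h1], by linarith only [hL, hLb, hm2, h1]⟩
  obtain ⟨kap', HN', s', t'', hF', hCH⟩ := BFr.round (ρ := ρ) (Gp := g - W g) (e₂ := e) hF hv hρ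
    he0.le he1 he2 (by ring) (by
      intro j hj
      obtain ⟨n1, n2, n3⟩ := hnum j hj
      have h1 := k1 (u j) n2
      have e1 : (σ 1).th (u j) - u j - (g - W g) =
          ((σ 1).th (u j) - g - (1 + ρ) * (u j - W g)) + ρ * (u j - W g) := by ring
      rw [e1]
      refine (abs_add_le _ _).trans ?_
      rw [abs_mul, abs_of_nonneg hρ]
      nlinarith only [n1, h1, hρ]) (by
      intro j hj
      obtain ⟨n1, n2, n3⟩ := hnum j hj
      have h1 := k2 (u j) n3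
      have e1 : (σ 1).rot (u j) - v₀ =
          ((σ 1).rot (u j) - v₀ - v * (u j - W g)) + v * (u j - W g) := by ring
      rw [e1]
      refine (abs_add_le _ _).trans ?_
      rw [abs_mul, abs_of_nonneg hv]
      nlinarith only [n1, h1, hv]) (by linarith only [hG0, hLJ, hdiv]) hJ2
  refine ⟨J, F, A, (le_max_left _ _).trans hJ, hSt, sg, wa, wb, vp, kap', Hu, HN', al, nu, kN, nN,
    a', s', t'', z, 2 * E + B + 9, hF', fun _ p hp hpA => (hCH p hp hpA).trans ?_⟩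
  have hx : (⌈(4 * v + 4 * ρ + 16) * (L * J)⌉₊ : ℝ) ≤ (4 * v + 4 * ρ + 16) * (L * J) + 1 := by
    have h1 : 0 ≤ (4 * v + 4 * ρ + 16) * (L * J) := by
      have : 0 ≤ L * (J : ℝ) := by linarith only [hG0, he0, he1, hLJ, hdiv]
      positivity
    exact (Nat.ceil_lt_add_one h1).le
  have hl1 : Real.log 2 ≤ 1 := by have := Real.log_two_lt_d9; linarith only [he0, he1, this]
  rw [← hG]
  have h2 : (2 : ℝ) * ⌈(4 * v + 4 * ρ + 16) * (L * J)⌉₊ * Real.log 2 ≤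
      2 * ⌈(4 * v + 4 * ρ + 16) * (L * J)⌉₊ * 1 :=
    mul_le_mul_of_nonneg_left hl1 (by positivity)
  have e1 : (2 * (4 * v + 4 * ρ + 16) + 3) * L * J =
      2 * ((4 * v + 4 * ρ + 16) * (L * J)) + 3 * (L * J) := by ring
  rw [e1]
  linarith only [hG0, he0, he1, hLJ, hdiv, hx, h2]

end Pool.S6B
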