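import Pool.Agent.H72.S6B.Def
import Pool.Agent.H36.S6.ActP
import Pool.Agent.H2.UST.Side

/-!
# Frames with an invisible plane of directions: rounding and friction

The plane of directions `(s, t)` of a frame `UFi` is rounded along a slope label `a₀`: `s` to the
multiples of `2 ^ (-h₁)`, and `t + (s - s') a₀` to the multiples of `2 ^ (-h₂)`. The rounded plane
still belongs to the frame, it has few digits beyond any visible plane close to it, and hence in a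
list of consecutive ranges of digits of the velocity there is one on which it carries little
information.
-/

set_option autoImplicit false

namespace Pool.S6B

open Finset Real
open Pool.Agent.H49.Ent Pool.Agent.H32.Dense Pool.STK Pool.KA Pool.KA.Win Pool.KA.TRC
  Pool.KSAT Pool.K2S Pool.K2S.Rows Pool.K2S.FF Pool.PB Pool.S6K.Wfe Pool.UST

/-! ### Rounding -/

/-- The multiple of `2 ^ (-h)` below `x`. -/
noncomputable def rnd (h : ℕ) (x : ℝ) : ℝ := (⌊(2 : ℝ) ^ h * x⌋ : ℝ) / 2 ^ h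

theorem rnd_near (h : ℕ) (x : ℝ) : |x - rnd h x| ≤ 1 / 2 ^ h := by
  have h1 := Int.floor_le ((2 : ℝ) ^ h * x)
  have h2 := Int.lt_floor_add_one ((2 : ℝ) ^ h * x)
  have hp : (0 : ℝ) < 2 ^ h := by positivity
  have e1 : x - rnd h x = (2 ^ h * x - ⌊(2 : ℝ) ^ h * x⌋) / 2 ^ h := by
    unfold rnd
    field_simp
  rw [e1, abs_div, abs_of_pos hp]
  refine div_le_div_of_nonneg_right ?_ hp.le
  rw [abs_le]
  constructor <;> linarith

theorem rnd_int (h : ℕ) (x : ℝ) : ∃ n : ℤ, rnd h x = n / 2 ^ h := ⟨_, rfl⟩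

/-- The first coefficient of the rounded plane of directions. -/
noncomputable def rdS {Ω : Type} (h1 : ℕ) (s : Ω → ℝ) (ω : Ω) : ℝ := rnd h1 (s ω)

/-- The second coefficient of the rounded plane of directions. -/
noncomputable def rdT {Ω : Type} (h1 h2 : ℕ) (s t a0 : Ω → ℝ) (ω : Ω) : ℝ :=
  rnd h2 (t ω + (s ω - rnd h1 (s ω)) * a0 ω)

/-- Both coefficients are rounded: integrality. -/
theorem rdS_int {Ω : Type} (h1 : ℕ) (s : Ω → ℝ) (ω : Ω) : ∃ n : ℤ, rdS h1 s ω = n / 2 ^ h1 :=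
  ⟨_, rfl⟩

theorem rdT_int {Ω : Type} (h1 h2 : ℕ) (s t a0 : Ω → ℝ) (ω : Ω) :
    ∃ n : ℤ, rdT h1 h2 s t a0 ω = n / 2 ^ h2 := ⟨_, rfl⟩

/-- The normal slope of the rounded plane at the slope `a0`. -/
theorem rd_cls {Ω : Type} (h1 h2 : ℕ) (s t a0 : Ω → ℝ) (ω : Ω) :
    |(s ω * a0 ω + t ω) - (rdS h1 s ω * a0 ω + rdT h1 h2 s t a0 ω)| ≤ 1 / 2 ^ h2 := by
  have h := rnd_near h2 (t ω + (s ω - rnd h1 (s ω)) * a0 ω)
  have e : (s ω * a0 ω + t ω) - (rdS h1 s ω * a0 ω + rdT h1 h2 s t a0 ω) =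
      (t ω + (s ω - rnd h1 (s ω)) * a0 ω) - rnd h2 (t ω + (s ω - rnd h1 (s ω)) * a0 ω) := by
    unfold rdS rdT
    ring
  rw [e]
  exact h

section fam

variable {J : ℕ} {F : Fam 3 J}

/-- **Rounding of the plane of directions along the slope label `a0`.** -/
theorem UFi.round {A : F.Ω → Prop} {σ : Fin 3 → Fin 3} {wl wa wb : ℕ} {vp : ℕ → ℕ}
    {kap Hu HN : ℕ} {al nu kN nN : (Fin 3 → ℤ) × (ℕ × F.ζ) → ℝ} {a : ℕ → F.Ω → ℝ}
    {s t : F.Ω → ℝ} {B C : ℝ} (h : UFi F A σ wl wa wb vp kap Hu HN al nu kN nN a s t B C)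
    {h1 h2 V : ℕ} {a0 : F.Ω → ℝ} {c : ℝ} (hc : 0 ≤ c) (g1 : HN ≤ h1 + Hu) (g2 : kap ≤ h2)
    (g3 : kap ≤ V + h1) (ha : ∀ ω, A ω → |al (Fam.pt F ω) - a0 ω| ≤ c / 2 ^ V)
    (hd : Det F.p (slam F wl) a0) :
    UFi F A σ wl wa wb vp kap Hu HN al nu kN nN a (rdS h1 s) (rdT h1 h2 s t a0) (3 * B + c)
      (C + c + 1) := by
  have hB := h.B1
  have hC := h.C1
  have p0 : ∀ n : ℕ, (0 : ℝ) < 2 ^ n := fun n => by positivity
  have p1 : ∀ n : ℕ, (1 : ℝ) ≤ 2 ^ n := fun n => one_le_pow₀ (by norm_num)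
  have key : ∀ {x y : ℕ} {e : ℝ}, 0 ≤ e → x ≤ y → e / (2 : ℝ) ^ y ≤ e / 2 ^ x := by
    intro x y e he hxy
    exact div_le_div_of_nonneg_left he (p0 _) (pow_le_pow_right₀ (by norm_num) hxy)
  have one : ∀ n : ℕ, (1 : ℝ) / 2 ^ n ≤ 1 := fun n => div_le_self (by norm_num) (p1 n)
  have ds : ∀ ω, |s ω - rdS h1 s ω| ≤ 1 / 2 ^ h1 := fun ω => rnd_near h1 (s ω)
  refine ⟨h.bij, by linarith, by linarith, h.lw, h.wJ, h.mono, ?_, ?_, ?_, ?_, h.near, h.int, ?_,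
    h.slm, ?_⟩
  · intro ω hω
    refine (h.on1 ω hω).trans ?_
    exact div_le_div_of_nonneg_right (by linarith) (p0 _).le
  · intro ω hω
    have a1 := h.on2 ω hω
    have a2 := h.on1 ω hω
    obtain ⟨δ, hδ⟩ : ∃ δ, δ = F.d ω (σ 1) - al (Fam.pt F ω) * F.d ω (σ 0) - nu (Fam.pt F ω) :=
      ⟨_, rfl⟩
    rw [← hδ] at a1 a2 ⊢
    have e : (F.d ω (σ 2) - kN (Fam.pt F ω) * F.d ω (σ 0) - nN (Fam.pt F ω)) - rdS h1 s ω * δ =
        ((F.d ω (σ 2) - kN (Fam.pt F ω) * F.d ω (σ 0) - nN (Fam.pt F ω)) - s ω * δ) +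
          (s ω - rdS h1 s ω) * δ := by ring
    rw [e]
    refine (abs_add_le _ _).trans ?_
    have b1 : |(s ω - rdS h1 s ω) * δ| ≤ B / 2 ^ HN := by
      rw [abs_mul]
      calc |s ω - rdS h1 s ω| * |δ| ≤ 1 / 2 ^ h1 * (B / 2 ^ Hu) :=
            mul_le_mul (ds ω) a2 (abs_nonneg _) (by positivity)
        _ = B / 2 ^ (h1 + Hu) := by
            rw [pow_add]
            field_simp
        _ ≤ B / 2 ^ HN := key (by linarith) g1
    have b2 : B / (2 : ℝ) ^ HN + B / 2 ^ HN = 2 * B / 2 ^ HN := by ring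
    have b3 : 2 * B / (2 : ℝ) ^ HN ≤ (3 * B + c) / 2 ^ HN :=
      div_le_div_of_nonneg_right (by linarith) (p0 _).le
    linarith
  · intro ω hω
    exact (h.bal ω hω).trans (by linarith)
  · intro ω hω
    obtain ⟨b1, b2⟩ := h.bd ω hω
    have b3 := ds ω
    have b4 := one h1
    have b5 : |rdS h1 s ω| ≤ B + 1 := by
      have e : rdS h1 s ω = s ω - (s ω - rdS h1 s ω) := by ring
      rw [e]
      exact (abs_sub _ _).trans (by linarith)
    refine ⟨by linarith, ?_⟩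
    have c1 := rnd_near h2 (t ω + (s ω - rnd h1 (s ω)) * a0 ω)
    have c2 := one h2
    have c3 := h.bal ω hω
    have c4 := ha ω hω
    have c5 : c / (2 : ℝ) ^ V ≤ c := div_le_self hc (p1 V)
    have c6 : |a0 ω| ≤ B + c := by
      have e : a0 ω = al (Fam.pt F ω) - (al (Fam.pt F ω) - a0 ω) := by ring
      rw [e]
      exact (abs_sub _ _).trans (by linarith)
    have c7 : |(s ω - rnd h1 (s ω)) * a0 ω| ≤ B + c := by
      rw [abs_mul]
      have c8 : |s ω - rnd h1 (s ω)| ≤ 1 := (rnd_near h1 (s ω)).trans b4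
      calc |s ω - rnd h1 (s ω)| * |a0 ω| ≤ 1 * (B + c) :=
            mul_le_mul c8 c6 (abs_nonneg _) (by norm_num)
        _ = B + c := one_mul _
    have e : rdT h1 h2 s t a0 ω = (t ω + (s ω - rnd h1 (s ω)) * a0 ω) -
        ((t ω + (s ω - rnd h1 (s ω)) * a0 ω) - rnd h2 (t ω + (s ω - rnd h1 (s ω)) * a0 ω)) := by
      unfold rdT
      ring
    rw [e]
    refine (abs_sub _ _).trans ?_
    have c9 := abs_add_le (t ω) ((s ω - rnd h1 (s ω)) * a0 ω)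
    linarith
  · intro ω hω
    have a1 := h.clo ω hω
    have a2 := rd_cls h1 h2 s t a0 ω
    have a3 := ha ω hω
    have e : kN (Fam.pt F ω) - rdS h1 s ω * al (Fam.pt F ω) - rdT h1 h2 s t a0 ω =
        (kN (Fam.pt F ω) - s ω * al (Fam.pt F ω) - t ω) +
          ((s ω - rdS h1 s ω) * (al (Fam.pt F ω) - a0 ω) +
          ((s ω * a0 ω + t ω) - (rdS h1 s ω * a0 ω + rdT h1 h2 s t a0 ω))) := by ring
    rw [e]
    refine (abs_add_le _ _).trans ?_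
    have b0 := abs_add_le ((s ω - rdS h1 s ω) * (al (Fam.pt F ω) - a0 ω))
      ((s ω * a0 ω + t ω) - (rdS h1 s ω * a0 ω + rdT h1 h2 s t a0 ω))
    have b1 : |(s ω - rdS h1 s ω) * (al (Fam.pt F ω) - a0 ω)| ≤ c / 2 ^ kap := by
      rw [abs_mul]
      calc |s ω - rdS h1 s ω| * |al (Fam.pt F ω) - a0 ω| ≤ 1 / 2 ^ h1 * (c / 2 ^ V) :=
            mul_le_mul (ds ω) a3 (abs_nonneg _) (by positivity)
        _ = c / 2 ^ (V + h1) := by
            rw [pow_add]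
            field_simp
        _ ≤ c / 2 ^ kap := key hc g3
    have b2 : (1 : ℝ) / 2 ^ h2 ≤ 1 / 2 ^ kap := key (by norm_num) g2
    have b3 : C / (2 : ℝ) ^ kap + (c / 2 ^ kap + 1 / 2 ^ kap) = (C + c + 1) / 2 ^ kap := by ring
    linarith
  · intro ω ω' hω hω' e
    have e1 := Prod.ext_iff.mp (h.slp ω ω' hω hω' e)
    have es : s ω = s ω' := e1.1
    have et : t ω = t ω' := e1.2
    have ea : a0 ω = a0 ω' := hd ω ω' hω hω' e
    show (rdS h1 s ω, rdT h1 h2 s t a0 ω) = (rdS h1 s ω', rdT h1 h2 s t a0 ω')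
    unfold rdS rdT
    rw [es, et, ea]

/-- **A label is coded in the second coefficient of the plane of directions.** -/
theorem UFi.code {A : F.Ω → Prop} {σ : Fin 3 → Fin 3} {wl wa wb : ℕ} {vp : ℕ → ℕ}
    {kap Hu HN : ℕ} {al nu kN nN : (Fin 3 → ℤ) × (ℕ × F.ζ) → ℝ} {a : ℕ → F.Ω → ℝ}
    {s t : F.Ω → ℝ} {B C : ℝ} (h : UFi F A σ wl wa wb vp kap Hu HN al nu kN nN a s t B C)
    {K : Type} {Th : F.Ω → K} (hT : Det F.p (slam F wl) Th) {r : ℕ} (hr : kap ≤ r)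
    {t' : F.Ω → ℝ} (h1 : ∀ ω, |t' ω - t ω| ≤ 1 / 2 ^ r)
    (h2 : ∀ ω ω', t' ω = t' ω' ↔ t ω = t ω' ∧ Th ω = Th ω') :
    UFi F A σ wl wa wb vp kap Hu HN al nu kN nN a s t' (B + 1) (C + 1) := by
  have hB := h.B1
  have hC := h.C1
  have p0 : ∀ n : ℕ, (0 : ℝ) < 2 ^ n := fun n => by positivity
  have one : (1 : ℝ) / 2 ^ r ≤ 1 := div_le_self (by norm_num) (one_le_pow₀ (by norm_num))
  refine ⟨h.bij, by linarith, by linarith, h.lw, h.wJ, h.mono, ?_, ?_, ?_, ?_, h.near, h.int, ?_,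
    h.slm, ?_⟩
  · exact fun ω hω => (h.on1 ω hω).trans (div_le_div_of_nonneg_right (by linarith) (p0 _).le)
  · exact fun ω hω => (h.on2 ω hω).trans (div_le_div_of_nonneg_right (by linarith) (p0 _).le)
  · exact fun ω hω => (h.bal ω hω).trans (by linarith)
  · intro ω hω
    obtain ⟨b1, b2⟩ := h.bd ω hω
    refine ⟨by linarith, ?_⟩
    have e : t' ω = t ω + (t' ω - t ω) := by ring
    rw [e]
    exact (abs_add_le _ _).trans (by linarith [h1 ω])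
  · intro ω hω
    have a1 := h.clo ω hω
    have e : kN (Fam.pt F ω) - s ω * al (Fam.pt F ω) - t' ω =
        (kN (Fam.pt F ω) - s ω * al (Fam.pt F ω) - t ω) - (t' ω - t ω) := by ring
    rw [e]
    refine (abs_sub _ _).trans ?_
    have b1 : (1 : ℝ) / 2 ^ r ≤ 1 / 2 ^ kap :=
      div_le_div_of_nonneg_left (by norm_num) (p0 _) (pow_le_pow_right₀ (by norm_num) hr)
    have b2 : (C + 1) / (2 : ℝ) ^ kap = C / 2 ^ kap + 1 / 2 ^ kap := by ring
    have b3 := h1 ω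
    linarith
  · intro ω ω' hω hω' e
    have e1 := Prod.ext_iff.mp (h.slp ω ω' hω hω' e)
    have es : s ω = s ω' := e1.1
    have et : t ω = t ω' := e1.2
    exact Prod.ext es ((h2 ω ω').2 ⟨et, hT ω ω' hω hω' e⟩)

end fam

/-! ### Entropy of the rounded plane -/

section ent

variable {Ω T : Type} [Fintype Ω] {p : Ω → ℝ}

/-- **The rounded plane has few digits beyond a plane close to it which is a function of `W`.** -/
theorem ch_rnd (hp : IsLaw p) {W : Ω → T} {s t a0 a1 : Ω → ℝ} {zs zc b0 : T → ℝ} {H V x : ℕ}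
    {E c : ℝ} (hE : 0 ≤ E) (hc : 0 ≤ c) (h0 : ∀ ω, 0 < p ω → a0 ω = b0 (W ω))
    (h1 : ∀ ω, 0 < p ω → |s ω + zs (W ω)| ≤ E / 2 ^ H)
    (h2 : ∀ ω, 0 < p ω → |t ω + zc (W ω) + (s ω + zs (W ω)) * a1 ω| ≤ E / 2 ^ (V + H))
    (h3 : ∀ ω, 0 < p ω → |a0 ω - a1 ω| ≤ c / 2 ^ V) :
    CH p (fun ω => (rdS (H + x) s ω, rdT (H + x) (V + H + x) s t a0 ω)) W ≤
      2 * x * Real.log 2 + 2 * Real.log (4 * (E * (1 + c)) + 5) := by
  have hn := hp.nonneg
  have p0 : ∀ n : ℕ, (0 : ℝ) < 2 ^ n := fun n => by positivity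
  have p1 : (1 : ℝ) ≤ 2 ^ x := one_le_pow₀ (by norm_num)
  have hEc : 0 ≤ E * c := mul_nonneg hE hc
  obtain ⟨N1, hN1⟩ : ∃ N1 : Ω → ℤ, N1 = fun ω => ⌊(2 : ℝ) ^ (H + x) * s ω⌋ := ⟨_, rfl⟩
  obtain ⟨N2, hN2⟩ : ∃ N2 : Ω → ℤ, N2 = fun ω =>
    ⌊(2 : ℝ) ^ (V + H + x) * (t ω + (s ω - rnd (H + x) (s ω)) * a0 ω)⌋ := ⟨_, rfl⟩
  -- the first coefficient
  have c1 : CH p N1 W ≤ Real.log (2 * (2 * (1 + 2 ^ x * E)) + 1) := by
    refine CH_near_int hp N1 W (fun u => -(2 ^ (H + x) * zs u)) ?_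
    intro ω hω
    have a1 := h1 ω hω
    have a2 := Int.floor_le ((2 : ℝ) ^ (H + x) * s ω)
    have a3 := Int.lt_floor_add_one ((2 : ℝ) ^ (H + x) * s ω)
    have e : (N1 ω : ℝ) - -(2 ^ (H + x) * zs (W ω)) =
        ((N1 ω : ℝ) - 2 ^ (H + x) * s ω) + 2 ^ (H + x) * (s ω + zs (W ω)) := by ring
    rw [e]
    refine (abs_add_le _ _).trans (add_le_add ?_ ?_)
    · rw [hN1, abs_le]
      constructor <;> linarith
    · rw [abs_mul, abs_of_pos (p0 _)]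
      calc (2 : ℝ) ^ (H + x) * |s ω + zs (W ω)| ≤ 2 ^ (H + x) * (E / 2 ^ H) :=
            mul_le_mul_of_nonneg_left a1 (p0 _).le
        _ = 2 ^ x * E := by
            rw [pow_add]
            field_simp
  -- the second coefficient
  have c2 : CH p N2 (fun ω => (N1 ω, W ω)) ≤
      Real.log (2 * (2 * (1 + 2 ^ x * (E * (1 + c)))) + 1) := by
    refine CH_near_int hp N2 (fun ω => (N1 ω, W ω)) (fun u => 2 ^ (V + H + x) *
      (-zc u.2 - ((u.1 : ℝ) / 2 ^ (H + x) + zs u.2) * b0 u.2)) ?_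
    intro ω hω
    obtain ⟨u, hu⟩ : ∃ u, u = t ω + (s ω - rnd (H + x) (s ω)) * a0 ω := ⟨_, rfl⟩
    have a2 := Int.floor_le ((2 : ℝ) ^ (V + H + x) * u)
    have a3 := Int.lt_floor_add_one ((2 : ℝ) ^ (V + H + x) * u)
    have a4 : (N1 ω : ℝ) / 2 ^ (H + x) = rnd (H + x) (s ω) := by
      rw [hN1]
      rfl
    have e0 : N2 ω = ⌊(2 : ℝ) ^ (V + H + x) * u⌋ := by
      rw [hN2, hu]
    have e : (N2 ω : ℝ) - 2 ^ (V + H + x) *
        (-zc (W ω) - ((N1 ω : ℝ) / 2 ^ (H + x) + zs (W ω)) * b0 (W ω)) =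
        ((N2 ω : ℝ) - 2 ^ (V + H + x) * u) + 2 ^ (V + H + x) *
          ((t ω + zc (W ω) + (s ω + zs (W ω)) * a1 ω) +
            (s ω + zs (W ω)) * (a0 ω - a1 ω)) := by
      rw [a4, ← h0 ω hω, hu]
      ring
    show |(N2 ω : ℝ) - 2 ^ (V + H + x) *
        (-zc (W ω) - ((N1 ω : ℝ) / 2 ^ (H + x) + zs (W ω)) * b0 (W ω))| ≤ _
    rw [e]
    refine (abs_add_le _ _).trans (add_le_add ?_ ?_)
    · rw [e0, abs_le]
      constructor <;> linarith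
    · rw [abs_mul, abs_of_pos (p0 _)]
      have b1 : |(s ω + zs (W ω)) * (a0 ω - a1 ω)| ≤ E * c / 2 ^ (V + H) := by
        rw [abs_mul]
        calc |s ω + zs (W ω)| * |a0 ω - a1 ω| ≤ E / 2 ^ H * (c / 2 ^ V) :=
              mul_le_mul (h1 ω hω) (h3 ω hω) (abs_nonneg _) (by positivity)
          _ = E * c / 2 ^ (V + H) := by
              rw [pow_add]
              field_simp
      have b2 := h2 ω hω
      have b3 : |(t ω + zc (W ω) + (s ω + zs (W ω)) * a1 ω) +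
          (s ω + zs (W ω)) * (a0 ω - a1 ω)| ≤ E / 2 ^ (V + H) + E * c / 2 ^ (V + H) :=
        (abs_add_le _ _).trans (add_le_add b2 b1)
      calc (2 : ℝ) ^ (V + H + x) * |(t ω + zc (W ω) + (s ω + zs (W ω)) * a1 ω) +
            (s ω + zs (W ω)) * (a0 ω - a1 ω)| ≤
            2 ^ (V + H + x) * (E / 2 ^ (V + H) + E * c / 2 ^ (V + H)) :=
            mul_le_mul_of_nonneg_left b3 (p0 _).le
        _ = 2 ^ x * (E * (1 + c)) := by
            rw [pow_add (2 : ℝ) (V + H) x]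
            field_simp
  -- the sum
  have c3 : CH p (fun ω => (rdS (H + x) s ω, rdT (H + x) (V + H + x) s t a0 ω)) W ≤
      CH p (fun ω => (N2 ω, N1 ω)) W := by
    refine CH_mono_left hn ?_
    intro ω ω' _ _ e
    have e1 := Prod.ext_iff.mp e
    have e2 := Prod.ext_iff.mp e1.1
    have e3 : N2 ω = N2 ω' := e2.1
    have e4 : N1 ω = N1 ω' := e2.2
    rw [hN2] at e3
    rw [hN1] at e4
    have e5 : rdS (H + x) s ω = rdS (H + x) s ω' := by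
      show (⌊(2 : ℝ) ^ (H + x) * s ω⌋ : ℝ) / 2 ^ (H + x) =
        (⌊(2 : ℝ) ^ (H + x) * s ω'⌋ : ℝ) / 2 ^ (H + x)
      have e6 : ⌊(2 : ℝ) ^ (H + x) * s ω⌋ = ⌊(2 : ℝ) ^ (H + x) * s ω'⌋ := e4
      rw [e6]
    have e7 : rdT (H + x) (V + H + x) s t a0 ω = rdT (H + x) (V + H + x) s t a0 ω' := by
      show (⌊(2 : ℝ) ^ (V + H + x) * (t ω + (s ω - rnd (H + x) (s ω)) * a0 ω)⌋ : ℝ) /
          2 ^ (V + H + x) =
        (⌊(2 : ℝ) ^ (V + H + x) * (t ω' + (s ω' - rnd (H + x) (s ω')) * a0 ω')⌋ : ℝ) /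
          2 ^ (V + H + x)
      have e8 : ⌊(2 : ℝ) ^ (V + H + x) * (t ω + (s ω - rnd (H + x) (s ω)) * a0 ω)⌋ =
        ⌊(2 : ℝ) ^ (V + H + x) * (t ω' + (s ω' - rnd (H + x) (s ω')) * a0 ω')⌋ := e3
      rw [e8]
    exact Prod.ext e5 e7
  have c4 := CH_chain hn N2 N1 W
  have d0 : 0 ≤ E * (1 + c) := by nlinarith
  have d1 : Real.log (2 * (2 * (1 + 2 ^ x * E)) + 1) ≤
      x * Real.log 2 + Real.log (4 * (E * (1 + c)) + 5) := by
    have e1 : (x : ℝ) * Real.log 2 + Real.log (4 * (E * (1 + c)) + 5) =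
        Real.log (2 ^ x * (4 * (E * (1 + c)) + 5)) := by
      rw [Real.log_mul (p0 _).ne' (by positivity), Real.log_pow]
    rw [e1]
    have q0 : (0 : ℝ) ≤ 2 ^ x * E := by positivity
    refine Real.log_le_log (by linarith) ?_
    have q1 : (0 : ℝ) ≤ 2 ^ x * (E * c) := by positivity
    nlinarith
  have d2 : Real.log (2 * (2 * (1 + 2 ^ x * (E * (1 + c)))) + 1) ≤
      x * Real.log 2 + Real.log (4 * (E * (1 + c)) + 5) := by
    have e1 : (x : ℝ) * Real.log 2 + Real.log (4 * (E * (1 + c)) + 5) =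
        Real.log (2 ^ x * (4 * (E * (1 + c)) + 5)) := by
      rw [Real.log_mul (p0 _).ne' (by positivity), Real.log_pow]
    rw [e1]
    have q0 : (0 : ℝ) ≤ 2 ^ x * (E * (1 + c)) := mul_nonneg (p0 _).le d0
    refine Real.log_le_log (by linarith) ?_
    nlinarith
  linarith

/-- A function on an event, constant where `X` is, is a function of `X`. -/
theorem ext_fn {S R : Type} [Nonempty R] {A : Ω → Prop} {X : Ω → S} {Y : Ω → R}
    (h : ∀ ω ω', A ω → A ω' → X ω = X ω' → Y ω = Y ω') : ∃ φ : S → R, ∀ ω, A ω → Y ω = φ (X ω) := by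
  classical
  refine ⟨fun u => if hu : ∃ ω, A ω ∧ X ω = u then Y hu.choose else Classical.arbitrary R, ?_⟩
  intro ω hω
  have hu : ∃ ω', A ω' ∧ X ω' = X ω := ⟨ω, hω, rfl⟩
  simp only [dif_pos hu]
  exact h _ _ hω hu.choose_spec.1 hu.choose_spec.2.symm

/-- A function on an event, constant where `X` is, agrees with one determined by `X`. -/
theorem ext0 {S R : Type} [Nonempty R] {A : Ω → Prop} {X : Ω → S} {Y : Ω → R}
    (h : ∀ ω ω', A ω → A ω' → X ω = X ω' → Y ω = Y ω') :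
    ∃ Y' : Ω → R, (∀ ω, A ω → Y ω = Y' ω) ∧ Det p X Y' ∧ ∀ ω ω', X ω = X ω' → Y' ω = Y' ω' := by
  obtain ⟨φ, hφ⟩ := ext_fn (A := A) h
  exact ⟨fun ω => φ (X ω), hφ, fun ω ω' _ _ e => congrArg φ e, fun ω ω' e => congrArg φ e⟩

end ent

/-! ### The plane of directions near a visible label -/

section lab

variable {J : ℕ} {F : Fam 3 J}

/-- **The rounded plane near a visible label.** The label `(e₀, c₀, s₀)` is a function of the exact
point and of the window `u ≤ wl`, its plane is near `(s, t)`. Then the plane of directions can be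
replaced by one which has few digits given the exact point, and which determines a given visible
label `Th` of the window `u`. -/
theorem UFi.fri_lab {A : F.Ω → Prop} {σ : Fin 3 → Fin 3} {wl wa wb : ℕ} {vp : ℕ → ℕ}
    {kap Hu HN : ℕ} {al nu kN nN : (Fin 3 → ℤ) × (ℕ × F.ζ) → ℝ} {a : ℕ → F.Ω → ℝ}
    {s t : F.Ω → ℝ} {B C : ℝ} (h : UFi F A σ wl wa wb vp kap Hu HN al nu kN nN a s t B C)
    {e0 c0 s0 a1 : F.Ω → ℝ} {u H V x : ℕ} {E c : ℝ} (hE : 0 ≤ E) (hc : 0 ≤ c) (hu : u ≤ wl)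
    (hJ : wl ≤ J) (g1 : HN ≤ H + x + Hu) (g2 : kap ≤ V + H + x)
    (hv : ∀ ω ω', A ω → A ω' → Fam.pt F ω = Fam.pt F ω' →
      (e0 ω, (c0 ω, s0 ω)) = (e0 ω', (c0 ω', s0 ω')))
    (hw : ∀ ω ω', A ω → A ω' → slam F u ω = slam F u ω' → e0 ω = e0 ω')
    (k1 : ∀ ω, A ω → |s ω + s0 ω| ≤ E / 2 ^ H)
    (k2 : ∀ ω, A ω → |t ω + c0 ω + (s ω + s0 ω) * a1 ω| ≤ E / 2 ^ (V + H))
    (k3 : ∀ ω, A ω → |al (Fam.pt F ω) - e0 ω| ≤ c / 2 ^ V)
    (k4 : ∀ ω, A ω → |al (Fam.pt F ω) - a1 ω| ≤ c / 2 ^ V)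
    {K : Type} {Th : F.Ω → K}
    (hTv : ∀ ω ω', A ω → A ω' → Fam.pt F ω = Fam.pt F ω' → Th ω = Th ω')
    (hTw : ∀ ω ω', A ω → A ω' → slam F u ω = slam F u ω' → Th ω = Th ω') :
    ∃ s' t' : F.Ω → ℝ,
      UFi F A σ wl wa wb vp kap Hu HN al nu kN nN a s' t' (3 * B + c + 1) (C + c + 2) ∧
      (∀ ω, ∃ n : ℤ, s' ω = n / 2 ^ (H + x)) ∧
      (∀ ω, A ω → |s ω - s' ω| ≤ 1 / 2 ^ (H + x)) ∧
      (∀ ω, A ω → |(s ω * al (Fam.pt F ω) + t ω) - (s' ω * al (Fam.pt F ω) + t' ω)| ≤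
        (c + 2) / 2 ^ (V + H + x)) ∧
      (∀ ω ω', A ω → A ω' → s' ω = s' ω' → t' ω = t' ω' → Th ω = Th ω') ∧
      ∀ p : F.Ω → ℝ, IsLaw p → (∀ ω, 0 < p ω → A ω) →
        CH p (fun ω => (s' ω, t' ω)) (Fam.pt F) ≤
          2 * x * Real.log 2 + 2 * Real.log (4 * (E * (1 + 2 * c)) + 5) := by
  classical
  have hΩ : Nonempty F.Ω := by
    by_contra hcon
    rw [not_nonempty_iff] at hcon
    have h1 := F.isLaw.sum_one
    simp at h1
  have hK : Nonempty K := ⟨Th hΩ.some⟩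
  obtain ⟨a0, ha0, -, hd⟩ := ext0 (p := F.p) (X := slam F u) (Y := e0) hw
  obtain ⟨Th', hTh', -, hdT⟩ := ext0 (p := F.p) (X := slam F u) (Y := Th) hTw
  obtain ⟨φ, hφ⟩ := ext_fn (A := A) (X := Fam.pt F) (Y := fun ω => (e0 ω, (c0 ω, s0 ω))) hv
  have hs : ∀ ω ω', slam F wl ω = slam F wl ω' → slam F u ω = slam F u ω' := by
    intro ω ω' e
    rw [slam_coarse F (w := u) (w' := wl) hu hJ ω, slam_coarse F (w := u) (w' := wl) hu hJ ω', e]
  have hd' : Det F.p (slam F wl) a0 := fun ω ω' _ _ e => hd ω ω' (hs ω ω' e)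
  have hdT' : Det F.p (slam F wl) Th' := fun ω ω' _ _ e => hdT ω ω' (hs ω ω' e)
  have k3' : ∀ ω, A ω → |al (Fam.pt F ω) - a0 ω| ≤ c / 2 ^ V := by
    intro ω hω
    rw [← ha0 ω hω]
    exact k3 ω hω
  have p0 : ∀ n : ℕ, (0 : ℝ) < 2 ^ n := fun n => by positivity
  obtain ⟨r, hr⟩ : ∃ r, r = V + H + x := ⟨_, rfl⟩
  obtain ⟨t', ht1, ht2⟩ := exists_code (rdT (H + x) (V + H + x) s t a0) Th' (δ := 1 / 2 ^ r)
    (by positivity)
  have hR := h.round (h1 := H + x) (h2 := V + H + x) (V := V) hc g1 g2 (by omega) k3' hd'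
  refine ⟨rdS (H + x) s, t', ?_, rdS_int (H + x) s, fun ω _ => rnd_near (H + x) (s ω), ?_, ?_, ?_⟩
  · have h3 := hR.code hdT' (r := r) (by omega) ht1 ht2
    have e : C + c + 1 + 1 = C + c + 2 := by ring
    rwa [e] at h3
  · intro ω hω
    have a1 := rd_cls (H + x) (V + H + x) s t a0 ω
    have a2 := ht1 ω
    rw [hr] at a2
    have e : (s ω * al (Fam.pt F ω) + t ω) - (rdS (H + x) s ω * al (Fam.pt F ω) + t' ω) =
        ((s ω - rdS (H + x) s ω) * (al (Fam.pt F ω) - a0 ω) + ((s ω * a0 ω + t ω) -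
          (rdS (H + x) s ω * a0 ω + rdT (H + x) (V + H + x) s t a0 ω))) -
          (t' ω - rdT (H + x) (V + H + x) s t a0 ω) := by ring
    rw [e]
    refine (abs_sub _ _).trans ?_
    have b0 := abs_add_le ((s ω - rdS (H + x) s ω) * (al (Fam.pt F ω) - a0 ω))
      ((s ω * a0 ω + t ω) - (rdS (H + x) s ω * a0 ω + rdT (H + x) (V + H + x) s t a0 ω))
    have b1 : |(s ω - rdS (H + x) s ω) * (al (Fam.pt F ω) - a0 ω)| ≤ c / 2 ^ (V + H + x) := by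
      rw [abs_mul]
      calc |s ω - rdS (H + x) s ω| * |al (Fam.pt F ω) - a0 ω| ≤ 1 / 2 ^ (H + x) * (c / 2 ^ V) :=
            mul_le_mul (rnd_near (H + x) (s ω)) (k3' ω hω) (abs_nonneg _) (by positivity)
        _ = c / 2 ^ (V + H + x) := by
            rw [add_assoc V H x, pow_add (2 : ℝ) V (H + x)]
            field_simp
    have b3 : c / (2 : ℝ) ^ (V + H + x) + 1 / 2 ^ (V + H + x) + 1 / 2 ^ (V + H + x) =
        (c + 2) / 2 ^ (V + H + x) := by ring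
    linarith
  · intro ω ω' hω hω' _ et
    have e1 := ((ht2 ω ω').1 et).2
    rw [hTh' ω hω, hTh' ω' hω', e1]
  · intro p hp hpA
    have key : CH p (fun ω => (rdS (H + x) s ω, rdT (H + x) (V + H + x) s t a0 ω)) (Fam.pt F) ≤
        2 * x * Real.log 2 + 2 * Real.log (4 * (E * (1 + 2 * c)) + 5) := by
      refine ch_rnd hp (W := Fam.pt F) (a1 := a1) (zs := fun y => (φ y).2.2)
        (zc := fun y => (φ y).2.1) (b0 := fun y => (φ y).1) hE (by linarith) ?_ ?_ ?_ ?_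
      · intro ω hω
        have e1 := hφ ω (hpA ω hω)
        have e2 := (Prod.ext_iff.mp e1).1
        rw [← ha0 ω (hpA ω hω)]
        exact e2
      · intro ω hω
        have e1 := hφ ω (hpA ω hω)
        have e2 : s0 ω = (φ (Fam.pt F ω)).2.2 := (Prod.ext_iff.mp (Prod.ext_iff.mp e1).2).2
        show |s ω + (φ (Fam.pt F ω)).2.2| ≤ _
        rw [← e2]
        exact k1 ω (hpA ω hω)
      · intro ω hω
        have e1 := hφ ω (hpA ω hω)
        have e2 : s0 ω = (φ (Fam.pt F ω)).2.2 := (Prod.ext_iff.mp (Prod.ext_iff.mp e1).2).2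
        have e3 : c0 ω = (φ (Fam.pt F ω)).2.1 := (Prod.ext_iff.mp (Prod.ext_iff.mp e1).2).1
        show |t ω + (φ (Fam.pt F ω)).2.1 + (s ω + (φ (Fam.pt F ω)).2.2) * a1 ω| ≤ _
        rw [← e2, ← e3]
        exact k2 ω (hpA ω hω)
      · intro ω hω
        have b1 := k3' ω (hpA ω hω)
        have b2 := k4 ω (hpA ω hω)
        have e : a0 ω - a1 ω = (al (Fam.pt F ω) - a1 ω) - (al (Fam.pt F ω) - a0 ω) := by ring
        rw [e]
        refine (abs_sub _ _).trans ?_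
        have b3 : 2 * c / (2 : ℝ) ^ V = c / 2 ^ V + c / 2 ^ V := by ring
        linarith
    refine le_trans ?_ key
    -- the label is visible
    refine CH_mono_left hp.nonneg ?_
    intro ω ω' hω hω' e
    have e1 := Prod.ext_iff.mp e
    have e2 : Fam.pt F ω = Fam.pt F ω' := e1.2
    have e3 := Prod.ext_iff.mp e1.1
    have e4 : rdT (H + x) (V + H + x) s t a0 ω = rdT (H + x) (V + H + x) s t a0 ω' := e3.2
    have e5 : Th' ω = Th' ω' := by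
      rw [← hTh' ω (hpA ω hω), ← hTh' ω' (hpA ω' hω')]
      exact hTv ω ω' (hpA ω hω) (hpA ω' hω') e2
    exact Prod.ext e3.1 ((ht2 ω ω').2 ⟨e4, e5⟩)

/-- **The rounded plane near a natural label.** -/
theorem UFi.fri_pln {A : F.Ω → Prop} {σ : Fin 3 → Fin 3} {wl wa wb : ℕ} {vp : ℕ → ℕ}
    {kap Hu HN : ℕ} {al nu kN nN : (Fin 3 → ℤ) × (ℕ × F.ζ) → ℝ} {a : ℕ → F.Ω → ℝ}
    {s t : F.Ω → ℝ} {B C : ℝ} (h : UFi F A σ wl wa wb vp kap Hu HN al nu kN nN a s t B C)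
    {z : F.Ω → Pool.KS6.Pln} {a1 : F.Ω → ℝ} {u H V x : ℕ} {E c : ℝ} (hE : 0 ≤ E) (hc : 0 ≤ c)
    (hu : u ≤ wl) (hJ : wl ≤ J) (g1 : HN ≤ H + x + Hu) (g2 : kap ≤ V + H + x)
    (hv : ∀ ω ω', A ω → A ω' → Fam.pt F ω = Fam.pt F ω' → z ω = z ω')
    (hw : ∀ ω ω', A ω → A ω' → slam F u ω = slam F u ω' → z ω = z ω')
    (k1 : ∀ ω, A ω → |s ω + (z ω).s| ≤ E / 2 ^ H)
    (k2 : ∀ ω, A ω → |t ω + (z ω).c + (s ω + (z ω).s) * a1 ω| ≤ E / 2 ^ (V + H))
    (k3 : ∀ ω, A ω → |al (Fam.pt F ω) - (z ω).e| ≤ c / 2 ^ V)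
    (k4 : ∀ ω, A ω → |al (Fam.pt F ω) - a1 ω| ≤ c / 2 ^ V) :
    ∃ s' t' : F.Ω → ℝ,
      UFi F A σ wl wa wb vp kap Hu HN al nu kN nN a s' t' (3 * B + c + 1) (C + c + 2) ∧
      (∀ ω, ∃ n : ℤ, s' ω = n / 2 ^ (H + x)) ∧
      (∀ ω, A ω → |s ω - s' ω| ≤ 1 / 2 ^ (H + x)) ∧
      (∀ ω, A ω → |(s ω * al (Fam.pt F ω) + t ω) - (s' ω * al (Fam.pt F ω) + t' ω)| ≤
        (c + 2) / 2 ^ (V + H + x)) ∧
      (∀ ω ω', A ω → A ω' → s' ω = s' ω' → t' ω = t' ω' → z ω = z ω') ∧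
      ∀ p : F.Ω → ℝ, IsLaw p → (∀ ω, 0 < p ω → A ω) →
        CH p (fun ω => (s' ω, t' ω)) (Fam.pt F) ≤
          2 * x * Real.log 2 + 2 * Real.log (4 * (E * (1 + 2 * c)) + 5) :=
  h.fri_lab (e0 := fun ω => (z ω).e) (c0 := fun ω => (z ω).c) (s0 := fun ω => (z ω).s) hE hc hu hJ
    g1 g2 (fun ω ω' hω hω' e => by rw [hv ω ω' hω hω' e])
    (fun ω ω' hω hω' e => by rw [hw ω ω' hω hω' e]) k1 k2 k3 k4 hv hw

/-- **Friction.** In a list of `M` consecutive ranges of digits of the base velocity, there is one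
on which the plane of directions carries at most `L / M`, if it has at most `L` digits given the
exact point. -/
theorem fri_pig {p : F.Ω → ℝ} (hp : ∀ ω, 0 ≤ p ω) (σ : Fin 3 → Fin 3) (s t : F.Ω → ℝ) (u : ℕ → ℕ)
    (hu : Monotone u) {M : ℕ} (hM : 0 < M) {L : ℝ}
    (hL : CH p (fun ω => (s ω, t ω)) (Fam.pt F) ≤ L) :
    ∃ j < M, fri F p σ s t (u j) (u (j + 1)) ≤ L / M := by
  obtain ⟨j, hj, h⟩ := mi_pig hp (σ 0) (fun ω => (s ω, t ω)) u hu hM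
  refine ⟨j, hj, ?_⟩
  have hM' : (0 : ℝ) < M := by exact_mod_cast hM
  rw [le_div_iff₀ hM']
  unfold fri
  linarith

theorem fri_nonneg {p : F.Ω → ℝ} (hp : ∀ ω, 0 ≤ p ω) (σ : Fin 3 → Fin 3) (s t : F.Ω → ℝ)
    {q q' : ℕ} (h : q ≤ q') : 0 ≤ fri F p σ s t q q' := by
  unfold fri
  rw [mi_D hp (σ 0) (fun ω => (s ω, t ω)) h]
  have := mi_anti hp (σ 0) (fun ω => (s ω, t ω)) h
  linarith

/-- Shorter ranges have less friction. -/
theorem fri_sub {p : F.Ω → ℝ} (hp : ∀ ω, 0 ≤ p ω) (σ : Fin 3 → Fin 3) (s t : F.Ω → ℝ)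
    {qa q q' qc : ℕ} (h1 : qa ≤ q) (h2 : q ≤ q') (h3 : q' ≤ qc) :
    fri F p σ s t q q' ≤ fri F p σ s t qa qc :=
  mi_sub hp (σ 0) (fun ω => (s ω, t ω)) h1 h2 h3

/-- The friction on an event. -/
theorem fri_ev {p : F.Ω → ℝ} (hp : IsLaw p) (σ : Fin 3 → Fin 3) (s t : F.Ω → ℝ)
    {E : F.Ω → Prop} (hE : 0 < Pe p E) (q q' : ℕ) :
    fri F (Pool.Agent.H49.Ent.cond p E True) σ s t q q' ≤
      (fri F p σ s t q q' + Real.log 2) / Pe p E := by
  have h := mi_ev hp (σ 0) (fun ω => (s ω, t ω)) E q q'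
  rw [le_div_iff₀ hE, mul_comm]
  exact h

end lab

end Pool.S6B
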