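import Pool.Agent.H91.S6B.Fri
import Pool.Agent.H23.S6E.Stmts

/-!
# Lower levels for invisible planes of directions and for natural labels
-/

set_option autoImplicit false

namespace Pool.S6B

open Finset Real
open Pool.Agent.H49.Ent Pool.Agent.H32.Dense Pool.STK Pool.KA Pool.KA.Win Pool.KA.TRC
  Pool.KSAT Pool.K2S Pool.K2S.Rows Pool.K2S.FF Pool.PB Pool.KS6 Pool.S6K.Wfe Pool.UST Pool.S6C

variable {J : ℕ} {F : Fam 3 J}

/-- Lower levels. -/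
theorem UFi.lvl {A : F.Ω → Prop} {σ : Fin 3 → Fin 3} {wl wa wb : ℕ} {vp : ℕ → ℕ}
    {kap Hu HN : ℕ} {al nu kN nN : (Fin 3 → ℤ) × (ℕ × F.ζ) → ℝ} {a : ℕ → F.Ω → ℝ}
    {s t : F.Ω → ℝ} {B C : ℝ} (h : UFi F A σ wl wa wb vp kap Hu HN al nu kN nN a s t B C)
    {kap' Hu' HN' : ℕ} (h1 : kap' ≤ kap) (h2 : Hu' ≤ Hu) (h3 : HN' ≤ HN) :
    UFi F A σ wl wa wb vp kap' Hu' HN' al nu kN nN a s t B C := by
  have hB := h.B1
  have hC := h.C1
  have key : ∀ {x y : ℕ} {c : ℝ}, 0 ≤ c → x ≤ y → c / (2 : ℝ) ^ y ≤ c / 2 ^ x := by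
    intro x y c hc hxy
    exact div_le_div_of_nonneg_left hc (by positivity) (pow_le_pow_right₀ (by norm_num) hxy)
  exact ⟨h.bij, h.B1, h.C1, h.lw, h.wJ, h.mono,
    fun ω hω => (h.on1 ω hω).trans (key (by linarith) h2),
    fun ω hω => (h.on2 ω hω).trans (key (by linarith) h3), h.bal, h.bd, h.near, h.int,
    fun ω hω => (h.clo ω hω).trans (key (by linarith) h1), h.slm, h.slp⟩

/-- Fewer digits. -/
theorem Inc.lvl {i0 iu iN : Fin 3} {w lam P lam' P' : ℕ} {C t : ℝ} (hC : 0 ≤ C) {y : Pln}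
    {x d : Fin 3 → ℝ} (h : Inc i0 iu iN w lam P C y t x d) (h1 : lam' ≤ lam) (h2 : P' ≤ P) :
    Inc i0 iu iN w lam' P' C y t x d := by
  have key : ∀ {x y : ℕ} {c : ℝ}, 0 ≤ c → x ≤ y → c / (2 : ℝ) ^ y ≤ c / 2 ^ x := by
    intro x y c hc hxy
    exact div_le_div_of_nonneg_left hc (by positivity) (pow_le_pow_right₀ (by norm_num) hxy)
  exact ⟨h.e_le, h.c_le, h.s_le, h.pe, h.pu.trans (key hC (by omega)), h.pn.trans (key hC h2),
    h.ve, h.vu.trans (key hC h1), h.vn.trans (key (by positivity) h2)⟩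

/-- Fewer digits. -/
theorem NL.lvl {A : F.Ω → Prop} {σ : Fin 3 → Fin 3} {w lam P lam' P' : ℕ} {z : F.Ω → Pln}
    (h : NL F A σ w lam P z) (h1 : lam' ≤ lam) (h2 : P' ≤ P) : NL F A σ w lam' P' z :=
  ⟨fun ω hω => Inc.lvl (by norm_num) (h.inc ω hω) h1 h2, h.vis, h.con⟩

end Pool.S6B
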